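import Pool.Agent.Y739.LC.Glob
import Pool.Agent.Y298.LC.Stm

/-!
# Project LC (helper298), job LC-BOT1: joint inverse Böttcher maps
-/

set_option autoImplicit false

open Complex Topology Filter Metric Set Bornology

namespace Pool.Agent.Y739.LC

open Pool.Agent.H712R2 (P fc)
open Pool.Agent.H713R2 (differentiableAt_of_pow)
open Pool.Agent.H713R2.AR (green gap gap_tendsto green_near green_nonneg)
open Pool.Agent.Y298.LC (Bott Dom S_BOT1)

lemma GG_diff {d : ℕ} (hd : 2 ≤ d) (n : ℕ) : ∀ c x, (c, x) ∈ WW d n →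
    DifferentiableAt ℂ (fun x => GG hd (c, x)) x ∧
      DifferentiableAt ℂ (fun c => GG hd (c, x)) c := by
  have hcont : ∀ c x, (c, x) ∈ DD d → ContinuousAt (GG hd) (c, x) := fun c x h =>
    (GG_cont hd).continuousAt ((isOpen_DD hd).mem_nhds h)
  induction n with
  | zero =>
    intro c x h
    have hsub : ∀ q ∈ WW d 0, q ∈ VV d := by
      rintro ⟨c, x⟩ hq
      have := hq.2
      simpa using this
    have hF : ∀ q ∈ WW d 0, GG hd q = FF d q.1 q.2 := fun q hq => GG_eq hd hq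
    have hn := (isOpen_WW hd 0).mem_nhds h
    constructor
    · refine (FF_diffx hd (hsub _ h)).congr_of_eventuallyEq ?_
      have h1 : Tendsto (fun y : ℂ => (c, y)) (𝓝 x) (𝓝 (c, x)) :=
        (by fun_prop : Continuous fun y : ℂ => (c, y)).tendsto x
      filter_upwards [h1.eventually hn] with y hy using hF _ hy
    · refine (FF_diffc hd (hsub _ h)).congr_of_eventuallyEq ?_
      have h1 : Tendsto (fun y : ℂ => (y, x)) (𝓝 c) (𝓝 (c, x)) :=
        (by fun_prop : Continuous fun y : ℂ => (y, x)).tendsto c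
      filter_upwards [h1.eventually hn] with y hy using hF _ hy
  | succ n ih =>
    intro c x h
    obtain ⟨i1, i2⟩ := ih c (x ^ d) (WW_succ hd h)
    have hn := (isOpen_DD hd).mem_nhds h.1
    constructor
    · have h1 : Tendsto (fun y : ℂ => (c, y)) (𝓝 x) (𝓝 (c, x)) :=
        (by fun_prop : Continuous fun y : ℂ => (c, y)).tendsto x
      apply differentiableAt_of_pow (N := d) (p := fun y => GG hd (c, y ^ d) - c * y ^ d)
        (by omega) ((hcont c x h.1).comp (f := fun y : ℂ => (c, y)) (by fun_prop)) (GG_ne hd h.1)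
      · have h3 : DifferentiableAt ℂ (fun y => GG hd (c, y ^ d)) x :=
          DifferentiableAt.comp x (g := fun y => GG hd (c, y)) (f := fun y => y ^ d) i1
            (by fun_prop)
        exact h3.sub (by fun_prop)
      · filter_upwards [h1.eventually hn] with y hy using GG_rel hd hy
    · have h1 : Tendsto (fun y : ℂ => (y, x)) (𝓝 c) (𝓝 (c, x)) :=
        (by fun_prop : Continuous fun y : ℂ => (y, x)).tendsto c
      apply differentiableAt_of_pow (N := d) (p := fun y => GG hd (y, x ^ d) - y * x ^ d)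
        (by omega) ((hcont c x h.1).comp (f := fun y : ℂ => (y, x)) (by fun_prop)) (GG_ne hd h.1)
      · exact i2.sub (by fun_prop)
      · filter_upwards [h1.eventually hn] with y hy using GG_rel hd hy

lemma dom_facts {d : ℕ} (hd : 2 ≤ d) {c w : ℂ} (h : green d c 0 < Real.log ‖w‖) :
    w ≠ 0 ∧ 1 < ‖w‖ ∧ (c, w⁻¹) ∈ DD d := by
  have h0 := green_nonneg hd c 0
  have h1 : 0 < Real.log ‖w‖ := lt_of_le_of_lt h0 h
  have h2 : 1 < ‖w‖ := (Real.log_pos_iff (norm_nonneg w)).1 h1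
  have h3 : w ≠ 0 := by
    rintro rfl
    rw [norm_zero] at h2
    linarith
  refine ⟨h3, h2, ?_⟩
  change ‖w⁻¹‖ * Real.exp (green d c 0) < 1
  rw [norm_inv, inv_mul_lt_iff₀ (by linarith), mul_one, ← Real.lt_log_iff_exp_lt (by linarith)]
  exact h

lemma dom_of {d : ℕ} {c x : ℂ} (h : (c, x) ∈ DD d) (hx : x ≠ 0) :
    green d c 0 < Real.log ‖x⁻¹‖ := by
  have h1 : ‖x‖ * Real.exp (green d c 0) < 1 := h
  have h0 : 0 < ‖x‖ := norm_pos_iff.2 hx
  rw [norm_inv, Real.lt_log_iff_exp_lt (by positivity), lt_inv_comm₀ (Real.exp_pos _) h0,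
    ← one_div, lt_div_iff₀ (Real.exp_pos _)]
  exact h1

/-- the inverse Böttcher map -/
noncomputable def Psi {d : ℕ} (hd : 2 ≤ d) (c w : ℂ) : ℂ := w * GG hd (c, w⁻¹)

lemma Psi_conj {d : ℕ} (hd : 2 ≤ d) {c w : ℂ} (h : w ∈ Dom (green d c 0)) :
    Psi hd c (w ^ d) = fc d c (Psi hd c w) := by
  obtain ⟨h1, h2, h3⟩ := dom_facts hd h
  unfold Psi Pool.Agent.H712R2.fc
  have h4 := GG_rel hd h3
  rw [mul_pow, h4, inv_pow]
  have : w ^ d ≠ 0 := pow_ne_zero _ h1
  field_simp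
  ring

lemma Psi_pot {d : ℕ} (hd : 2 ≤ d) {c w : ℂ} (h : w ∈ Dom (green d c 0)) :
    green d c (Psi hd c w) = Real.log ‖w‖ := by
  obtain ⟨h1, h2, h3⟩ := dom_facts hd h
  have := GG_pot hd h3 (inv_ne_zero h1)
  rw [inv_inv, norm_inv, Real.log_inv, neg_neg] at this
  exact this

lemma Psi_rot {d : ℕ} (hd : 2 ≤ d) {c ω w : ℂ} (hω : ω ^ d = 1) (h : w ∈ Dom (green d c 0)) :
    Psi hd c (ω * w) = ω * Psi hd c w := by
  obtain ⟨h1, h2, h3⟩ := dom_facts hd h
  unfold Psi
  have h4 : GG hd (c, w⁻¹) = GG hd (c, (ω * w)⁻¹) := by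
    apply GG_rot hd h3
    rw [mul_inv, mul_pow, inv_pow ω, hω, inv_one, one_mul]
  rw [← h4]
  ring

lemma Psi_ne {d : ℕ} (hd : 2 ≤ d) {c w : ℂ} (h : w ∈ Dom (green d c 0)) : Psi hd c w ≠ 0 := by
  obtain ⟨h1, h2, h3⟩ := dom_facts hd h
  exact mul_ne_zero h1 (GG_ne hd h3)

lemma Dom_pow {d : ℕ} (hd : 2 ≤ d) {c w : ℂ} (h : w ∈ Dom (green d c 0)) :
    w ^ d ∈ Dom (green d c 0) := by
  obtain ⟨h1, h2, h3⟩ := dom_facts hd h
  have h4 : green d c 0 < Real.log ‖w‖ := h
  change green d c 0 < Real.log ‖w ^ d‖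
  rw [norm_pow]
  refine lt_of_lt_of_le h4 (Real.log_le_log (by linarith) ?_)
  calc ‖w‖ = ‖w‖ ^ 1 := (pow_one _).symm
    _ ≤ ‖w‖ ^ d := pow_le_pow_right₀ h2.le (by omega)

/-- the function `x / G(c,x)` near `0` -/
lemma strict {d : ℕ} (hd : 2 ≤ d) (c : ℂ) :
    HasStrictDerivAt (fun x => x / GG hd (c, x)) 1 0 := by
  have h0 : (c, (0 : ℂ)) ∈ DD d := (WW_zero hd 0 c).1
  have ho : IsOpen {x : ℂ | (c, x) ∈ DD d} := (isOpen_DD hd).preimage (by fun_prop)
  have hdiff : DifferentiableOn ℂ (fun x => x / GG hd (c, x)) {x : ℂ | (c, x) ∈ DD d} := by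
    intro x hx
    obtain ⟨n, hn⟩ := exists_WW hd hx
    exact (differentiableAt_id.div (GG_diff hd n c x hn).1 (GG_ne hd hx)).differentiableWithinAt
  have ha : AnalyticAt ℂ (fun x => x / GG hd (c, x)) 0 := hdiff.analyticAt (ho.mem_nhds h0)
  have hs := ha.hasStrictDerivAt
  have hG : HasDerivAt (fun x => GG hd (c, x)) (deriv (fun x => GG hd (c, x)) 0) 0 :=
    (GG_diff hd 0 c 0 (WW_zero hd 0 c)).1.hasDerivAt
  have h1 := (hasDerivAt_id (0 : ℂ)).div hG (GG_ne hd h0)
  have h2 : deriv (fun x => x / GG hd (c, x)) 0 = 1 := by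
    have h3 := h1.deriv
    simp only [id, GG_zero, zero_mul, sub_zero, one_pow, mul_one, div_one] at h3
    exact h3
  rwa [h2] at hs

lemma Psi_iter {d : ℕ} (hd : 2 ≤ d) {c : ℂ} (n : ℕ) : ∀ w, w ∈ Dom (green d c 0) →
    w ^ (d ^ n) ∈ Dom (green d c 0) ∧ (fc d c)^[n] (Psi hd c w) = Psi hd c (w ^ (d ^ n)) := by
  induction n with
  | zero => intro w hw; simpa using hw
  | succ n ih =>
    intro w hw
    obtain ⟨h1, h2⟩ := ih (w ^ d) (Dom_pow hd hw)
    rw [← pow_mul, ← pow_succ'] at h1 h2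
    refine ⟨h1, ?_⟩
    rw [Function.iterate_succ_apply, ← Psi_conj hd hw, h2]

lemma Psi_inj {d : ℕ} (hd : 2 ≤ d) (c : ℂ) : InjOn (Psi hd c) (Dom (green d c 0)) := by
  intro w hw w' hw' heq
  obtain ⟨a1, a2, a3⟩ := dom_facts hd hw
  obtain ⟨b1, b2, b3⟩ := dom_facts hd hw'
  -- local injectivity
  have hs := (strict hd c).hasStrictFDerivAt_equiv one_ne_zero
  have hl := hs.eventually_left_inverse
  have t1 := tendsto_pp hd (DD_lt_one hd a3)
  have t2 := tendsto_pp hd (DD_lt_one hd b3)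
  obtain ⟨n, hn1, hn2⟩ := ((t1.eventually hl).and (t2.eventually hl)).exists
  have hk : ∀ v, v ∈ Dom (green d c 0) →
      (v⁻¹) ^ (d ^ n) / GG hd (c, (v⁻¹) ^ (d ^ n)) = (Psi hd c (v ^ (d ^ n)))⁻¹ := by
    intro v hv
    unfold Psi
    rw [mul_inv, inv_pow, div_eq_mul_inv]
  have h1 : (w⁻¹) ^ (d ^ n) = (w'⁻¹) ^ (d ^ n) := by
    rw [← hn1, ← hn2]
    congr 1
    rw [hk w hw, hk w' hw', ← (Psi_iter hd n w hw).2, ← (Psi_iter hd n w' hw').2, heq]
  have h2 : w ^ (d ^ n) = w' ^ (d ^ n) := by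
    rw [inv_pow, inv_pow] at h1
    exact inv_injective h1
  clear h1 hn1 hn2 hk
  -- descending induction
  induction n with
  | zero => simpa using h2
  | succ n ih =>
    apply ih
    obtain ⟨e1, e2⟩ := Psi_iter hd n w hw
    obtain ⟨e1', e2'⟩ := Psi_iter hd n w' hw'
    have h3 : Psi hd c (w ^ (d ^ n)) = Psi hd c (w' ^ (d ^ n)) := by rw [← e2, ← e2', heq]
    obtain ⟨u1, u2, u3⟩ := dom_facts hd e1
    have h4 : GG hd (c, (w ^ (d ^ n))⁻¹) = GG hd (c, (w' ^ (d ^ n))⁻¹) := by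
      apply GG_rot hd u3
      rw [inv_pow, inv_pow, ← pow_mul, ← pow_mul, ← pow_succ, h2]
    unfold Psi at h3
    rw [← h4] at h3
    exact mul_right_cancel₀ (GG_ne hd u3) h3

lemma Psi_surj {d : ℕ} (hd : 2 ≤ d) (c z : ℂ) (hz : green d c 0 < green d c z) :
    ∃ w ∈ Dom (green d c 0), Psi hd c w = z := by
  have hdR : (2 : ℝ) ≤ d := by exact_mod_cast hd
  have hd0 : d ≠ 0 := by omega
  have hg0 := green_nonneg hd c 0
  -- near infinity
  have hev : ∃ n, ∃ w ∈ Dom (green d c 0), Psi hd c w = (fc d c)^[n] z := by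
    have h1 : Tendsto (fun n => gap d c z n) atTop (𝓝 (green d c z)) := gap_tendsto hd c z
    have h2 : Tendsto (fun n : ℕ => gap d c z n * (d : ℝ) ^ n) atTop atTop :=
      h1.pos_mul_atTop (by linarith) (tendsto_pow_atTop_atTop_of_one_lt (by linarith))
    have h3 : Tendsto (fun n : ℕ => ((fc d c)^[n] z)⁻¹) atTop (𝓝 0) := by
      apply Tendsto.comp tendsto_inv₀_cobounded
      rw [← tendsto_norm_atTop_iff_cobounded]
      have h4 : Tendsto (fun n : ℕ => Real.exp (gap d c z n * (d : ℝ) ^ n)) atTop atTop :=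
        Real.tendsto_exp_atTop.comp h2
      apply h4.congr'
      filter_upwards [h2.eventually (eventually_gt_atTop 0)] with n hn
      have h5 : gap d c z n * (d : ℝ) ^ n = Real.posLog ‖(fc d c)^[n] z‖ := by
        unfold Pool.Agent.H713R2.AR.gap
        have : (0 : ℝ) < (d : ℝ) ^ n := by positivity
        field_simp
      rw [h5] at hn ⊢
      have h6 : 1 < ‖(fc d c)^[n] z‖ := by
        by_contra hcon
        push Not at hcon
        have : Real.posLog ‖(fc d c)^[n] z‖ = 0 := by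
          rw [Real.posLog_eq_zero_iff, abs_of_nonneg (norm_nonneg _)]
          exact hcon
        linarith
      rw [Real.posLog_eq_log (by rw [abs_of_nonneg (norm_nonneg _)]; exact h6.le),
        Real.exp_log (by linarith)]
    have h7 := (strict hd c).map_nhds_eq one_ne_zero
    simp only [zero_div] at h7
    have h8 : (fun x => x / GG hd (c, x)) '' {x : ℂ | (c, x) ∈ DD d} ∈ 𝓝 (0 : ℂ) := by
      rw [← h7]
      apply image_mem_map
      exact ((isOpen_DD hd).preimage (by fun_prop : Continuous fun x : ℂ => (c, x))).mem_nhds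
        (WW_zero hd 0 c).1
    have h9 : ∀ᶠ n in atTop, (fc d c)^[n] z ≠ 0 := by
      filter_upwards [h2.eventually (eventually_gt_atTop 0)] with n hn h0
      have h5 : gap d c z n * (d : ℝ) ^ n = 0 := by
        unfold Pool.Agent.H713R2.AR.gap
        rw [h0, norm_zero, Real.posLog_zero, zero_div, zero_mul]
      linarith
    obtain ⟨n, ⟨x, hx, hxn⟩, hn0⟩ := ((h3.eventually h8).and h9).exists
    have hx0 : x ≠ 0 := by
      rintro rfl
      simp only [zero_div] at hxn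
      exact inv_ne_zero hn0 hxn.symm
    refine ⟨n, x⁻¹, dom_of hx hx0, ?_⟩
    unfold Psi
    rw [inv_inv]
    have := congrArg Inv.inv hxn
    simp only [inv_inv, inv_div] at this
    rw [← this, div_eq_mul_inv, mul_comm]
  obtain ⟨n, hn⟩ := hev
  clear hg0
  induction n generalizing z with
  | zero => simpa using hn
  | succ n ih =>
    have h1 := green_step hd c z
    have hgz : 0 ≤ green d c z := green_nonneg hd c z
    obtain ⟨w₁, hw₁, e₁⟩ := ih (fc d c z) (by rw [h1]; nlinarith) (by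
      rw [Function.iterate_succ_apply] at hn; exact hn)
    obtain ⟨w, hw⟩ := IsAlgClosed.exists_pow_nat_eq w₁ (Nat.pos_of_ne_zero hd0)
    have h2 := Psi_pot hd hw₁
    rw [e₁, h1, ← hw, norm_pow, Real.log_pow] at h2
    have h3 : green d c z = Real.log ‖w‖ := mul_left_cancel₀ (by positivity) h2
    have hwD : w ∈ Dom (green d c 0) := by
      change green d c 0 < Real.log ‖w‖
      rw [← h3]; exact hz
    have h4 := Psi_conj hd hwD
    rw [hw, e₁] at h4
    have h5 : z ^ d = (Psi hd c w) ^ d := by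
      unfold Pool.Agent.H712R2.fc at h4
      exact add_right_cancel h4
    have hne := Psi_ne hd hwD
    have hω : (z / Psi hd c w) ^ d = 1 := by
      rw [div_pow, h5, div_self (pow_ne_zero _ hne)]
    have hω1 : ‖z / Psi hd c w‖ = 1 := by
      have h6 := congrArg norm hω
      rw [norm_pow, norm_one] at h6
      exact (pow_eq_one_iff_of_nonneg (norm_nonneg _) hd0).1 h6
    refine ⟨z / Psi hd c w * w, ?_, ?_⟩
    · change green d c 0 < Real.log ‖z / Psi hd c w * w‖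
      rw [norm_mul, hω1, one_mul]
      exact hwD
    · rw [Psi_rot hd hω hwD, div_mul_cancel₀ _ hne]

lemma Psi_unif {d : ℕ} (hd : 2 ≤ d) {ε : ℝ} (hε : 0 < ε) : ∃ R : ℝ, ∀ c w : ℂ, R ≤ ‖w‖ →
    ‖c‖ ≤ 2 * ‖w‖ → w ∈ Dom (green d c 0) ∧ ‖Psi hd c w - w‖ ≤ ε * ‖w‖ := by
  have hdR : (2 : ℝ) ≤ d := by exact_mod_cast hd
  refine ⟨max 33 (4 / ε), fun c w hw hc => ?_⟩
  have h33 : 33 ≤ ‖w‖ := (le_max_left _ _).trans hw
  have h4 : 4 / ε ≤ ‖w‖ := (le_max_right _ _).trans hw
  set ρ := ‖w‖ with hρ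
  have hw0 : w ≠ 0 := by
    rintro rfl
    rw [norm_zero] at hρ
    linarith
  have hl2 : 0 < Real.log 2 := Real.log_pos (by norm_num)
  -- the potential of the critical point
  have hdom : green d c 0 < Real.log ρ := by
    have h1 := (abs_le.1 (green_near hd (A := 2 * ρ) (by linarith) hc 0 2)).2
    have h2 : ‖(fc d c)^[2] 0‖ ≤ 2 * (2 * ρ) ^ d := by
      have : (fc d c)^[2] 0 = c ^ d + c := by
        rw [show 2 = 1 + 1 from rfl, Function.iterate_succ_apply, Function.iterate_one]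
        unfold Pool.Agent.H712R2.fc
        rw [zero_pow (by omega), zero_add]
      rw [this]
      have h3 : ‖c‖ ^ d ≤ (2 * ρ) ^ d := pow_le_pow_left₀ (norm_nonneg _) hc d
      have h4 : 2 * ρ ≤ (2 * ρ) ^ d := by
        calc 2 * ρ = (2 * ρ) ^ 1 := (pow_one _).symm
          _ ≤ (2 * ρ) ^ d := pow_le_pow_right₀ (by linarith) (by omega)
      have h5 := norm_add_le (c ^ d) c
      rw [norm_pow] at h5
      linarith
    have hone : 1 ≤ (2 * ρ) ^ d := one_le_pow₀ (by linarith)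
    have h5 : Real.posLog ‖(fc d c)^[2] 0‖ ≤ Real.log 2 + d * Real.log (2 * ρ) := by
      refine (Real.posLog_le_posLog (norm_nonneg _) h2).trans (le_of_eq ?_)
      rw [Real.posLog_eq_log (by rw [abs_of_nonneg (by linarith)]; linarith),
        Real.log_mul (by norm_num) (by positivity), Real.log_pow]
    have h6 : Real.log (2 * ρ) = Real.log 2 + Real.log ρ :=
      Real.log_mul (by norm_num) (by linarith)
    have h7 : Real.log (2 * (2 * ρ)) = 2 * Real.log 2 + Real.log ρ := by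
      rw [Real.log_mul (by norm_num) (by linarith), h6]; ring
    have h8 : 5 * Real.log 2 < Real.log ρ := by
      rw [show (5 : ℝ) * Real.log 2 = Real.log (2 ^ 5) by rw [Real.log_pow]; norm_num]
      apply Real.log_lt_log (by norm_num)
      linarith
    have hd2 : (0 : ℝ) < (d : ℝ) ^ 2 := by positivity
    have h9 : green d c 0 ≤ (Real.log 2 + d * Real.log (2 * ρ) + Real.log (2 * (2 * ρ))) /
        (d : ℝ) ^ 2 := by
      have h10 : gap d c 0 2 ≤ (Real.log 2 + d * Real.log (2 * ρ)) / (d : ℝ) ^ 2 :=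
        div_le_div_of_nonneg_right h5 hd2.le
      rw [add_div]
      linarith
    refine lt_of_le_of_lt h9 ?_
    rw [div_lt_iff₀ hd2, h6, h7]
    have hlρ : 0 < Real.log ρ := by linarith
    have h11 : ((d : ℝ) + 1) * 4 ≤ 3 * (d : ℝ) ^ 2 := by nlinarith
    have h12 : ((d : ℝ) + 3) * 4 ≤ 5 * (d : ℝ) ^ 2 := by nlinarith
    nlinarith [mul_le_mul_of_nonneg_left h11 hlρ.le, mul_le_mul_of_nonneg_left h12 hl2.le,
      mul_lt_mul_of_pos_left h8 hd2]
  refine ⟨hdom, ?_⟩
  have hpow : ρ⁻¹ ^ d ≤ ρ⁻¹ ^ 2 := pow_le_pow_of_le_one (by positivity)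
    (inv_le_one_of_one_le₀ (by linarith)) hd
  have hcx : ‖c‖ * ‖w⁻¹‖ ^ d ≤ 2 / ρ := by
    rw [norm_inv, ← hρ]
    calc ‖c‖ * ρ⁻¹ ^ d ≤ (2 * ρ) * ρ⁻¹ ^ 2 :=
          mul_le_mul hc hpow (by positivity) (by linarith)
      _ = 2 / ρ := by field_simp
  have hV : (c, w⁻¹) ∈ VV d := by
    refine ⟨?_, ?_⟩
    · change ‖w⁻¹‖ < 1 / 2
      rw [norm_inv, ← hρ, inv_lt_comm₀ (by linarith) (by norm_num)]
      linarith
    · change ‖c‖ * ‖w⁻¹‖ ^ d < 1 / 16
      refine lt_of_le_of_lt hcx ?_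
      rw [div_lt_iff₀ (by linarith)]
      linarith
  have hW : (c, w⁻¹) ∈ WW d 0 := by
    refine ⟨(dom_facts hd hdom).2.2, ?_⟩
    simpa using hV
  have hG : GG hd (c, w⁻¹) = FF d c w⁻¹ := GG_eq hd hW
  unfold Psi
  rw [hG, show w * FF d c w⁻¹ - w = w * (FF d c w⁻¹ - 1) by ring, norm_mul, ← hρ]
  have h1 := FF_bd hd hV
  have h2 : ρ * ‖FF d c w⁻¹ - 1‖ ≤ ρ * (2 * (2 / ρ)) := by
    apply mul_le_mul_of_nonneg_left _ (by linarith)
    linarith
  have h3 : ρ * (2 * (2 / ρ)) = 4 := by field_simp; norm_num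
  have h5 : 4 ≤ ε * ρ := by
    rw [div_le_iff₀ hε] at h4
    linarith
  linarith

/-- **BOT1** -/
theorem bot1 : S_BOT1 := by
  intro d hd
  refine ⟨Psi hd, ?_, ?_, ?_, ?_, ?_, ?_, ?_, ?_, ?_, ?_⟩
  · intro c w hw
    obtain ⟨h1, h2, h3⟩ := dom_facts hd hw
    obtain ⟨n, hn⟩ := exists_WW hd h3
    have h4 : DifferentiableAt ℂ (fun w => GG hd (c, w⁻¹)) w :=
      DifferentiableAt.comp w (g := fun x => GG hd (c, x)) (f := fun w => w⁻¹)
        (GG_diff hd n c _ hn).1 (differentiableAt_inv h1)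
    exact (differentiableAt_id.mul h4).differentiableWithinAt
  · intro w c hc
    obtain ⟨h1, h2, h3⟩ := dom_facts hd hc
    obtain ⟨n, hn⟩ := exists_WW hd h3
    exact ((differentiableAt_const w).mul (GG_diff hd n c _ hn).2).differentiableWithinAt
  · have h1 : ∀ p ∈ {p : ℂ × ℂ | green d p.1 0 < Real.log ‖p.2‖}, (p.1, p.2⁻¹) ∈ DD d :=
      fun p hp => (dom_facts hd hp).2.2
    have h2 : ContinuousOn (fun p : ℂ × ℂ => (p.1, p.2⁻¹))
        {p : ℂ × ℂ | green d p.1 0 < Real.log ‖p.2‖} :=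
      continuousOn_fst.prodMk (continuousOn_snd.inv₀ fun p hp => (dom_facts hd hp).1)
    exact continuousOn_snd.mul ((GG_cont hd).comp h2 h1)
  · intro c w hw
    exact Psi_conj hd hw
  · intro c w hw
    exact Psi_pot hd hw
  · exact Psi_inj hd
  · exact Psi_surj hd
  · intro c
    have h1 : ContinuousAt (GG hd) (c, 0) :=
      (GG_cont hd).continuousAt ((isOpen_DD hd).mem_nhds (WW_zero hd 0 c).1)
    have h2 : Tendsto (fun w : ℂ => GG hd (c, w⁻¹)) (cobounded ℂ) (𝓝 1) := by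
      have h3 := h1.tendsto
      rw [GG_zero] at h3
      exact h3.comp (tendsto_const_nhds.prodMk_nhds tendsto_inv₀_cobounded)
    apply h2.congr'
    filter_upwards [eventually_ne_cobounded (0 : ℂ)] with w hw
    unfold Psi
    rw [mul_div_cancel_left₀ _ hw]
  · intro c ω hω w hw
    exact Psi_rot hd hω hw
  · intro ε hε
    exact Psi_unif hd hε

end Pool.Agent.Y739.LC
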