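import Pool.Agent.Y739.LC.Loc
import Pool.Agent.H713R2.AR.GF

/-!
# Project LC (helper298), job LC-BOT1: extension of the inverse Böttcher maps
-/

set_option autoImplicit false

open Complex Topology Filter Metric Set

namespace Pool.Agent.Y739.LC

open Pool.Agent.H712R2 (P fc exists_log_star continuous_P)
open Pool.Agent.H713R2 (differentiableAt_of_pow)
open Pool.Agent.H713R2.AR (green gap gap_tendsto green_near green_nonneg)

/-! ### The Green function -/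

lemma green_step {d : ℕ} (hd : 2 ≤ d) (c z : ℂ) : green d c (fc d c z) = d * green d c z := by
  have hdR : (0 : ℝ) < d := by exact_mod_cast (by omega : 0 < d)
  have h1 := gap_tendsto hd c (fc d c z)
  have h2 : Tendsto (fun n => (d : ℝ) * gap d c z (n + 1)) atTop (𝓝 (d * green d c z)) :=
    ((gap_tendsto hd c z).comp (tendsto_add_atTop_nat 1)).const_mul _
  have h3 : gap d c (fc d c z) = fun n => (d : ℝ) * gap d c z (n + 1) := by
    funext n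
    unfold Pool.Agent.H713R2.AR.gap
    rw [Function.iterate_succ_apply, pow_succ]
    field_simp
  rw [h3] at h1
  exact tendsto_nhds_unique h1 h2

lemma green_c {d : ℕ} (hd : 2 ≤ d) (c : ℂ) : green d c c = d * green d c 0 := by
  have h := green_step hd c 0
  have h2 : fc d c 0 = c := by
    unfold Pool.Agent.H712R2.fc
    rw [zero_pow (by omega), zero_add]
  rwa [h2] at h

lemma cont_g {d : ℕ} (hd : 2 ≤ d) : Continuous fun c => green d c 0 := by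
  have hdR : (2 : ℝ) ≤ d := by exact_mod_cast hd
  rw [continuous_iff_continuousAt]
  intro c₀
  set A : ℝ := ‖c₀‖ + 1 with hA
  have hA1 : 1 ≤ A := by have := norm_nonneg c₀; linarith
  have hu : TendstoUniformlyOn (fun n c => gap d c 0 n) (fun c => green d c 0) atTop
      (ball (0 : ℂ) A) := by
    rw [Metric.tendstoUniformlyOn_iff]
    intro ε hε
    have h1 : Tendsto (fun n : ℕ => Real.log (2 * A) / (d : ℝ) ^ n) atTop (𝓝 0) := by
      have h2 : Tendsto (fun n : ℕ => (d : ℝ) ^ n) atTop atTop :=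
        tendsto_pow_atTop_atTop_of_one_lt (by linarith)
      exact h2.const_div_atTop _
    filter_upwards [h1.eventually (gt_mem_nhds hε)] with n hn c hc
    rw [Real.dist_eq]
    rw [mem_ball_zero_iff] at hc
    exact (green_near hd hA1 hc.le 0 n).trans_lt hn
  have hcn : ∀ n, Continuous fun c => gap d c 0 n := by
    intro n
    unfold Pool.Agent.H713R2.AR.gap
    exact (Real.continuous_posLog.comp (continuous_P d n).norm).div_const _
  have hc : ContinuousOn (fun c => green d c 0) (ball (0 : ℂ) A) :=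
    hu.continuousOn (Frequently.of_forall fun n => (hcn n).continuousOn)
  exact hc.continuousAt (isOpen_ball.mem_nhds (by rw [mem_ball_zero_iff]; linarith))

/-! ### The domains -/

/-- the domain -/
def DD (d : ℕ) : Set (ℂ × ℂ) := {q | ‖q.2‖ * Real.exp (green d q.1 0) < 1}

/-- the image of the domain -/
def DD' (d : ℕ) : Set (ℂ × ℂ) := {q | ‖q.2‖ * Real.exp (d * green d q.1 0) < 1}

lemma isOpen_DD {d : ℕ} (hd : 2 ≤ d) : IsOpen (DD d) := by
  apply isOpen_lt _ continuous_const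
  exact continuous_snd.norm.mul (Real.continuous_exp.comp ((cont_g hd).comp continuous_fst))

lemma DD_lt_one {d : ℕ} (hd : 2 ≤ d) {c x : ℂ} (h : (c, x) ∈ DD d) : ‖x‖ < 1 := by
  have h1 : ‖x‖ * Real.exp (green d c 0) < 1 := h
  have h2 : 1 ≤ Real.exp (green d c 0) := Real.one_le_exp (green_nonneg hd c 0)
  have h3 := norm_nonneg x
  nlinarith

lemma DD'_sub {d : ℕ} (hd : 2 ≤ d) : DD' d ⊆ DD d := by
  rintro ⟨c, x⟩ h
  have h1 : ‖x‖ * Real.exp (d * green d c 0) < 1 := h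
  have hdR : (2 : ℝ) ≤ d := by exact_mod_cast hd
  have h2 : Real.exp (green d c 0) ≤ Real.exp (d * green d c 0) := by
    apply Real.exp_le_exp.2
    have := green_nonneg hd c 0
    nlinarith
  exact lt_of_le_of_lt (mul_le_mul_of_nonneg_left h2 (norm_nonneg x)) h1

lemma DD_pow' {d : ℕ} (hd : 2 ≤ d) {c x : ℂ} (h : (c, x) ∈ DD d) : (c, x ^ d) ∈ DD' d := by
  have h1 : ‖x‖ * Real.exp (green d c 0) < 1 := h
  change ‖x ^ d‖ * Real.exp (d * green d c 0) < 1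
  rw [norm_pow, Real.exp_nat_mul, ← mul_pow]
  exact pow_lt_one₀ (by positivity) h1 (by omega)

lemma DD_pow {d : ℕ} (hd : 2 ≤ d) {c x : ℂ} (h : (c, x) ∈ DD d) : (c, x ^ d) ∈ DD d :=
  DD'_sub hd (DD_pow' hd h)

lemma DD_norm {d : ℕ} {c x x' : ℂ} (hx : ‖x'‖ ≤ ‖x‖) (h : (c, x) ∈ DD d) : (c, x') ∈ DD d :=
  lt_of_le_of_lt (mul_le_mul_of_nonneg_right hx (Real.exp_pos _).le) h

lemma DD'_norm {d : ℕ} {c x x' : ℂ} (hx : ‖x'‖ ≤ ‖x‖) (h : (c, x) ∈ DD' d) : (c, x') ∈ DD' d :=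
  lt_of_le_of_lt (mul_le_mul_of_nonneg_right hx (Real.exp_pos _).le) h

lemma VV_norm {d : ℕ} {c x x' : ℂ} (hx : ‖x'‖ ≤ ‖x‖) (h : (c, x) ∈ VV d) : (c, x') ∈ VV d :=
  ⟨lt_of_le_of_lt hx h.1, lt_of_le_of_lt (mul_le_mul_of_nonneg_left
    (pow_le_pow_left₀ (norm_nonneg _) hx d) (norm_nonneg c)) h.2⟩

/-- the region of the `n`-th step -/
def WW (d n : ℕ) : Set (ℂ × ℂ) := {q | q ∈ DD d ∧ (q.1, q.2 ^ (d ^ n)) ∈ VV d}

lemma isOpen_WW {d : ℕ} (hd : 2 ≤ d) (n : ℕ) : IsOpen (WW d n) :=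
  (isOpen_DD hd).inter ((isOpen_VV d).preimage
    (f := fun q : ℂ × ℂ => (q.1, q.2 ^ (d ^ n))) (by fun_prop))

lemma WW_norm {d n : ℕ} {c x x' : ℂ} (hx : ‖x'‖ ≤ ‖x‖) (h : (c, x) ∈ WW d n) :
    (c, x') ∈ WW d n := by
  refine ⟨DD_norm hx h.1, VV_norm (x := x ^ (d ^ n)) ?_ h.2⟩
  rw [norm_pow, norm_pow]
  exact pow_le_pow_left₀ (norm_nonneg _) hx _

lemma norm_star (x : ℂ) (s : ℝ) (hs : s ∈ Icc (0 : ℝ) 1) : ‖(s : ℂ) * x‖ ≤ ‖x‖ := by
  rw [norm_mul, Complex.norm_real, Real.norm_eq_abs, abs_of_nonneg hs.1]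
  exact mul_le_of_le_one_left (norm_nonneg x) hs.2

lemma WW_zero {d : ℕ} (hd : 2 ≤ d) (n : ℕ) (c : ℂ) : (c, (0 : ℂ)) ∈ WW d n := by
  refine ⟨?_, ?_⟩
  · change ‖(0 : ℂ)‖ * _ < 1
    simp
  · have : (d ^ n) ≠ 0 := pow_ne_zero _ (by omega)
    simp only [zero_pow this]
    exact VV_mem_zero hd c

lemma WW_mono {d : ℕ} (hd : 2 ≤ d) (n : ℕ) : WW d n ⊆ WW d (n + 1) := by
  rintro ⟨c, x⟩ h
  refine ⟨h.1, ?_⟩
  have := VV_pow hd (c := c) (x := x ^ (d ^ n)) h.2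
  rwa [← pow_mul, ← pow_succ] at this

lemma WW_succ {d : ℕ} {n : ℕ} (hd : 2 ≤ d) {c x : ℂ} (h : (c, x) ∈ WW d (n + 1)) :
    (c, x ^ d) ∈ WW d n := by
  refine ⟨DD_pow hd h.1, ?_⟩
  have h2 : (c, x ^ (d ^ (n + 1))) ∈ VV d := h.2
  rwa [pow_succ', pow_mul] at h2

lemma WW_pow {d : ℕ} {n : ℕ} (hd : 2 ≤ d) {c x : ℂ} (h : (c, x) ∈ WW d n) :
    (c, x ^ d) ∈ WW d n := WW_succ hd (WW_mono hd n h)

lemma tendsto_pp {d : ℕ} (hd : 2 ≤ d) {x : ℂ} (hx : ‖x‖ < 1) :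
    Tendsto (fun n : ℕ => x ^ (d ^ n)) atTop (𝓝 0) :=
  (tendsto_pow_atTop_nhds_zero_of_norm_lt_one hx).comp
    (tendsto_pow_atTop_atTop_of_one_lt (by omega : 1 < d))

lemma exists_WW {d : ℕ} (hd : 2 ≤ d) {c x : ℂ} (h : (c, x) ∈ DD d) : ∃ n, (c, x) ∈ WW d n := by
  have h1 := tendsto_pp hd (DD_lt_one hd h)
  have h2 : Tendsto (fun n : ℕ => (c, x ^ (d ^ n))) atTop (𝓝 (c, 0)) :=
    tendsto_const_nhds.prodMk_nhds h1
  obtain ⟨n, hn⟩ := (h2.eventually ((isOpen_VV d).mem_nhds (VV_mem_zero hd c))).exists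
  exact ⟨n, h, hn⟩

/-! ### The maps of the `n`-th step -/

/-- The properties of the map of the `n`-th step. -/
structure IsH (d n : ℕ) (g : ℂ × ℂ → ℂ) : Prop where
  cont : ContinuousOn g (WW d n)
  zero : ∀ c, g (c, 0) = 1
  rel : ∀ c x, (c, x) ∈ WW d n → g (c, x) ^ d = g (c, x ^ d) - c * x ^ d
  rot : ∀ c x x', x ^ d = x' ^ d → g (c, x) = g (c, x')

lemma IsH.iter {d n : ℕ} (hd : 2 ≤ d) {g : ℂ × ℂ → ℂ} (hg : IsH d n g) (k : ℕ) :
    ∀ c x, (c, x) ∈ WW d n → x ≠ 0 →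
      (fc d c)^[k] (x⁻¹ * g (c, x)) = (x ^ (d ^ k))⁻¹ * g (c, x ^ (d ^ k)) := by
  induction k with
  | zero => intro c x _ _; simp
  | succ k ih =>
    intro c x h hx
    rw [Function.iterate_succ_apply]
    have h1 : fc d c (x⁻¹ * g (c, x)) = (x ^ d)⁻¹ * g (c, x ^ d) := by
      unfold Pool.Agent.H712R2.fc
      rw [mul_pow, hg.rel c x h, inv_pow]
      have : x ^ d ≠ 0 := pow_ne_zero _ hx
      field_simp
      ring
    rw [h1, ih c (x ^ d) (WW_pow hd h) (pow_ne_zero _ hx), ← pow_mul, ← pow_succ']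

lemma IsH.pot {d n : ℕ} (hd : 2 ≤ d) {g : ℂ × ℂ → ℂ} (hg : IsH d n g) {c x : ℂ}
    (h : (c, x) ∈ WW d n) (hx : x ≠ 0) : green d c (x⁻¹ * g (c, x)) = -Real.log ‖x‖ := by
  have hdR : (2 : ℝ) ≤ d := by exact_mod_cast hd
  have hx1 := DD_lt_one hd h.1
  have h0 := tendsto_pp hd hx1
  have hg1 : Tendsto (fun k : ℕ => g (c, x ^ (d ^ k))) atTop (𝓝 1) := by
    have h2 : ContinuousAt g (c, 0) :=
      hg.cont.continuousAt ((isOpen_WW hd n).mem_nhds (WW_zero hd n c))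
    have h3 := h2.tendsto
    rw [hg.zero] at h3
    exact h3.comp (tendsto_const_nhds.prodMk_nhds h0)
  have hn : Tendsto (fun k : ℕ => ‖g (c, x ^ (d ^ k))‖) atTop (𝓝 1) := by
    simpa using hg1.norm
  have hl : Tendsto (fun k : ℕ => Real.log ‖g (c, x ^ (d ^ k))‖) atTop (𝓝 0) := by
    have := (Real.continuousAt_log (one_ne_zero)).tendsto.comp hn
    rwa [Real.log_one] at this
  have hi : Tendsto (fun k : ℕ => ((d : ℝ) ^ k)⁻¹) atTop (𝓝 0) :=
    (tendsto_pow_atTop_atTop_of_one_lt (by linarith)).inv_tendsto_atTop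
  have h4 : Tendsto (fun k : ℕ => -Real.log ‖x‖ + Real.log ‖g (c, x ^ (d ^ k))‖ * ((d : ℝ) ^ k)⁻¹)
      atTop (𝓝 (-Real.log ‖x‖ + 0 * 0)) := (hl.mul hi).const_add _
  rw [mul_zero, add_zero] at h4
  refine tendsto_nhds_unique (gap_tendsto hd c _) (h4.congr' ?_)
  have h5 : Tendsto (fun k : ℕ => ‖x ^ (d ^ k)‖) atTop (𝓝 0) := by simpa using h0.norm
  filter_upwards [hn.eventually (lt_mem_nhds (show (1 / 2 : ℝ) < 1 by norm_num)),
    h5.eventually (gt_mem_nhds (show (0 : ℝ) < 1 / 2 by norm_num))] with k hk1 hk2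
  unfold Pool.Agent.H713R2.AR.gap
  rw [hg.iter hd k c x h hx, norm_mul, norm_inv]
  have hp : 0 < ‖x ^ (d ^ k)‖ := norm_pos_iff.2 (pow_ne_zero _ hx)
  have h6 : 2 ≤ ‖x ^ (d ^ k)‖⁻¹ := by
    rw [le_inv_comm₀ (by norm_num) hp]
    linarith
  have h7 : 1 ≤ ‖x ^ (d ^ k)‖⁻¹ * ‖g (c, x ^ (d ^ k))‖ := by nlinarith
  rw [Real.posLog_eq_log (by rw [abs_of_nonneg (by linarith)]; exact h7),
    Real.log_mul (by positivity) (by linarith), Real.log_inv, norm_pow, Real.log_pow]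
  have : (0 : ℝ) < (d : ℝ) ^ k := by positivity
  push_cast
  field_simp

lemma IsH.T_ne {d n : ℕ} (hd : 2 ≤ d) {g : ℂ × ℂ → ℂ} (hg : IsH d n g) {c y : ℂ}
    (h : (c, y) ∈ WW d n) (h' : (c, y) ∈ DD' d) : g (c, y) - c * y ≠ 0 := by
  intro h0
  by_cases hy : y = 0
  · rw [hy, hg.zero] at h0
    simp at h0
  · have h1 : y⁻¹ * g (c, y) = c := by
      rw [sub_eq_zero.1 h0]
      field_simp
    have h2 := hg.pot hd h hy
    rw [h1, green_c hd] at h2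
    have h3 : ‖y‖ * Real.exp (d * green d c 0) < 1 := h'
    rw [h2, Real.exp_neg, Real.exp_log (norm_pos_iff.2 hy),
      mul_inv_cancel₀ (norm_ne_zero_iff.2 hy)] at h3
    exact lt_irrefl _ h3

lemma IsH.ne {d n : ℕ} (hd : 2 ≤ d) {g : ℂ × ℂ → ℂ} (hg : IsH d n g) {c x : ℂ}
    (h : (c, x) ∈ WW d n) : g (c, x) ≠ 0 := by
  have h1 := hg.T_ne hd (WW_pow hd h) (DD_pow' hd h.1)
  rw [← hg.rel c x h] at h1
  intro h0
  rw [h0, zero_pow (by omega)] at h1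
  exact h1 rfl

/-- a continuous function with `φ ^ d = 1` on an interval is constant -/
lemma root_const {d : ℕ} (hd : d ≠ 0) {φ : ℝ → ℂ} (hc : ContinuousOn φ (Icc 0 1))
    (h : ∀ s ∈ Icc (0 : ℝ) 1, φ s ^ d = 1) : φ 1 = φ 0 := by
  have hf : {z : ℂ | z ^ d = 1}.Finite := by
    have h1 : {z : ℂ | z ^ d = 1} ⊆ ((Polynomial.X ^ d - Polynomial.C (1 : ℂ)).roots.toFinset :
        Set ℂ) := by
      intro z hz
      rw [Finset.mem_coe, Multiset.mem_toFinset,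
        Polynomial.mem_roots (Polynomial.X_pow_sub_C_ne_zero (Nat.pos_of_ne_zero hd) 1)]
      have hz' : z ^ d = 1 := hz
      simp [hz']
    exact (Finset.finite_toSet _).subset h1
  have h2 : (φ '' Icc 0 1).Subsingleton := by
    have ht : IsTotallyDisconnected {z : ℂ | z ^ d = 1} := hf.countable.isTotallyDisconnected
    apply ht _ _ (isPreconnected_Icc.image φ hc)
    rintro _ ⟨s, hs, rfl⟩
    exact h s hs
  exact h2 ⟨1, right_mem_Icc.2 zero_le_one, rfl⟩ ⟨0, left_mem_Icc.2 zero_le_one, rfl⟩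

/-- One step of the extension. -/
lemma step {d n : ℕ} (hd : 2 ≤ d) {g : ℂ × ℂ → ℂ} (hg : IsH d n g) :
    ∃ g', IsH d (n + 1) g' ∧ ∀ q ∈ WW d n, g' q = g q := by
  have hd0 : d ≠ 0 := by omega
  have hdC : (d : ℂ) ≠ 0 := by exact_mod_cast hd0
  set A : Set (ℂ × ℂ) := WW d n ∩ DD' d with hA
  set T : ℂ × ℂ → ℂ := fun q => g q - q.1 * q.2 with hT
  have hstar : ∀ e x, (e, x) ∈ A → ∀ s : ℝ, s ∈ Icc (0 : ℝ) 1 → (e, (s : ℂ) * x) ∈ A :=
    fun e x hx s hs => ⟨WW_norm (norm_star x s hs) hx.1, DD'_norm (norm_star x s hs) hx.2⟩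
  have hTc : ContinuousOn T A := by
    apply ContinuousOn.sub (hg.cont.mono inter_subset_left)
    fun_prop
  have hT0 : ∀ e x, (e, x) ∈ A → T (e, 0) = 1 := by
    intro e x _; simp [hT, hg.zero]
  have hTne : ∀ q ∈ A, T q ≠ 0 := fun q hq => hg.T_ne hd (c := q.1) (y := q.2) hq.1 hq.2
  obtain ⟨h, hhc, hhe, hh0⟩ := exists_log_star hstar hTc hT0 hTne
  set g' : ℂ × ℂ → ℂ := fun q => Complex.exp (h (q.1, q.2 ^ d) / d) with hg'
  have hmem : ∀ c x, (c, x) ∈ WW d (n + 1) → (c, x ^ d) ∈ A := fun c x hx =>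
    ⟨WW_succ hd hx, DD_pow' hd hx.1⟩
  have hpow : ∀ c x, (c, x) ∈ WW d (n + 1) → g' (c, x) ^ d = g (c, x ^ d) - c * x ^ d := by
    intro c x hx
    simp only [hg']
    rw [← Complex.exp_nat_mul, mul_div_cancel₀ _ hdC, hhe _ (hmem c x hx)]
  have hcont' : ContinuousOn g' (WW d (n + 1)) := by
    simp only [hg']
    apply Continuous.comp_continuousOn Complex.continuous_exp
    apply ContinuousOn.div_const
    exact hhc.comp (f := fun q : ℂ × ℂ => (q.1, q.2 ^ d)) (by fun_prop)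
      (fun q hq => hmem q.1 q.2 hq)
  have hz0 : ∀ c, (c, (0 : ℂ)) ∈ A := by
    intro c
    refine ⟨WW_zero hd n c, ?_⟩
    change ‖(0 : ℂ)‖ * _ < 1
    simp
  have hzero' : ∀ c, g' (c, 0) = 1 := by
    intro c
    simp only [hg', zero_pow hd0]
    rw [hh0 c 0 (hz0 c)]
    simp
  have heq : ∀ q ∈ WW d n, g' q = g q := by
    rintro ⟨c, x⟩ hq
    have hseg : ∀ s ∈ Icc (0 : ℝ) 1, (c, (s : ℂ) * x) ∈ WW d n := fun s hs =>
      WW_norm (norm_star x s hs) hq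
    have hc1 : ContinuousOn (fun s : ℝ => g (c, (s : ℂ) * x)) (Icc 0 1) :=
      hg.cont.comp (f := fun s : ℝ => (c, (s : ℂ) * x)) (by fun_prop) hseg
    have hc2 : ContinuousOn (fun s : ℝ => g' (c, (s : ℂ) * x)) (Icc 0 1) :=
      hcont'.comp (f := fun s : ℝ => (c, (s : ℂ) * x)) (by fun_prop)
        (fun s hs => WW_mono hd n (hseg s hs))
    have h1 := root_const hd0 (φ := fun s : ℝ => g' (c, (s : ℂ) * x) / g (c, (s : ℂ) * x))
      (hc2.div hc1 (fun s hs => hg.ne hd (hseg s hs))) (by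
        intro s hs
        rw [div_pow, hpow _ _ (WW_mono hd n (hseg s hs)), ← hg.rel _ _ (hseg s hs),
          div_self (pow_ne_zero _ (hg.ne hd (hseg s hs)))])
    simp only [ofReal_one, one_mul, ofReal_zero, zero_mul, hzero', hg.zero, div_one] at h1
    exact (div_eq_one_iff_eq (hg.ne hd hq)).1 h1
  refine ⟨g', ⟨hcont', hzero', ?_, ?_⟩, heq⟩
  · intro c x hx
    rw [hpow c x hx, heq _ (WW_succ hd hx)]
  · intro c x x' hxx
    simp only [hg', hxx]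

lemma base {d : ℕ} (hd : 2 ≤ d) : IsH d 0 (fun q => FF d q.1 q.2) := by
  have hsub : ∀ q ∈ WW d 0, q ∈ VV d := by
    rintro ⟨c, x⟩ hq
    have := hq.2
    simpa using this
  refine ⟨(FF_cont hd).mono hsub, fun c => FF_zero hd c, ?_, ?_⟩
  · intro c x hx
    exact FF_pow hd (hsub _ hx)
  · intro c x x' hxx
    have h : ∀ j, Fs d (j + 1) c x = Fs d (j + 1) c x' := by
      intro j
      rw [Fs_succ, Fs_succ, hxx]
    have h2 : (fun j => Fs d j c x) = fun j => Fs d j c x' := by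
      funext j
      cases j with
      | zero => rfl
      | succ j => exact h j
    simp only [FF, h2]

open Classical in
/-- The sequence of extensions. -/
noncomputable def Hs {d : ℕ} (hd : 2 ≤ d) : (n : ℕ) → {g : ℂ × ℂ → ℂ // IsH d n g}
  | 0 => ⟨fun q => FF d q.1 q.2, base hd⟩
  | n + 1 => ⟨(step hd (Hs hd n).2).choose, (step hd (Hs hd n).2).choose_spec.1⟩

lemma Hs_succ {d : ℕ} (hd : 2 ≤ d) (n : ℕ) : ∀ q ∈ WW d n, (Hs hd (n + 1)).1 q = (Hs hd n).1 q :=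
  (step hd (Hs hd n).2).choose_spec.2

lemma WW_le {d : ℕ} (hd : 2 ≤ d) {m n : ℕ} (h : m ≤ n) : WW d m ⊆ WW d n := by
  induction n, h using Nat.le_induction with
  | base => exact Subset.rfl
  | succ n _ ih => exact ih.trans (WW_mono hd n)

lemma Hs_le {d : ℕ} (hd : 2 ≤ d) {m n : ℕ} (h : m ≤ n) :
    ∀ q ∈ WW d m, (Hs hd n).1 q = (Hs hd m).1 q := by
  induction n, h using Nat.le_induction with
  | base => intro q _; rfl
  | succ n hmn ih =>
    intro q hq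
    rw [Hs_succ hd n q (WW_le hd hmn hq), ih q hq]

open Classical in
/-- The inverse Böttcher map, in the coordinate `x = 1 / w` and divided by `w`. -/
noncomputable def GG {d : ℕ} (hd : 2 ≤ d) (q : ℂ × ℂ) : ℂ :=
  if h : ∃ n, q ∈ WW d n then (Hs hd (Nat.find h)).1 q else 1

lemma GG_eq {d : ℕ} (hd : 2 ≤ d) {n : ℕ} {q : ℂ × ℂ} (hq : q ∈ WW d n) :
    GG hd q = (Hs hd n).1 q := by
  classical
  have h : ∃ n, q ∈ WW d n := ⟨n, hq⟩
  rw [GG, dif_pos h]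
  exact (Hs_le hd (Nat.find_min' h hq) q (Nat.find_spec h)).symm

lemma GG_cont {d : ℕ} (hd : 2 ≤ d) : ContinuousOn (GG hd) (DD d) := by
  rintro ⟨c, x⟩ hq
  obtain ⟨n, hn⟩ := exists_WW hd hq
  have h1 := (Hs hd n).2.cont.continuousAt ((isOpen_WW hd n).mem_nhds hn)
  apply ContinuousAt.continuousWithinAt
  apply h1.congr
  filter_upwards [(isOpen_WW hd n).mem_nhds hn] with q hq
  exact (GG_eq hd hq).symm

lemma GG_zero {d : ℕ} (hd : 2 ≤ d) (c : ℂ) : GG hd (c, 0) = 1 := by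
  rw [GG_eq hd (WW_zero hd 0 c)]
  exact (Hs hd 0).2.zero c

lemma GG_rel {d : ℕ} (hd : 2 ≤ d) {c x : ℂ} (h : (c, x) ∈ DD d) :
    GG hd (c, x) ^ d = GG hd (c, x ^ d) - c * x ^ d := by
  obtain ⟨n, hn⟩ := exists_WW hd h
  rw [GG_eq hd hn, GG_eq hd (WW_pow hd hn)]
  exact (Hs hd n).2.rel c x hn

lemma GG_ne {d : ℕ} (hd : 2 ≤ d) {c x : ℂ} (h : (c, x) ∈ DD d) : GG hd (c, x) ≠ 0 := by
  obtain ⟨n, hn⟩ := exists_WW hd h
  rw [GG_eq hd hn]
  exact (Hs hd n).2.ne hd hn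

lemma GG_pot {d : ℕ} (hd : 2 ≤ d) {c x : ℂ} (h : (c, x) ∈ DD d) (hx : x ≠ 0) :
    green d c (x⁻¹ * GG hd (c, x)) = -Real.log ‖x‖ := by
  obtain ⟨n, hn⟩ := exists_WW hd h
  rw [GG_eq hd hn]
  exact (Hs hd n).2.pot hd hn hx

lemma GG_rot {d : ℕ} (hd : 2 ≤ d) {c x x' : ℂ} (h : (c, x) ∈ DD d) (hx : x ^ d = x' ^ d) :
    GG hd (c, x) = GG hd (c, x') := by
  obtain ⟨n, hn⟩ := exists_WW hd h
  have hnorm : ‖x'‖ = ‖x‖ := by
    have := congrArg norm hx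
    rw [norm_pow, norm_pow] at this
    exact ((pow_left_inj₀ (norm_nonneg _) (norm_nonneg _) (by omega)).1 this).symm
  rw [GG_eq hd hn, GG_eq hd (WW_norm hnorm.le hn)]
  exact (Hs hd n).2.rot c x x' hx

end Pool.Agent.Y739.LC
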