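import Mathlib
import Pool.Agent.H713R2.Ext1

/-!
# Project LC (helper298), job LC-BOT1: the inverse Böttcher maps near infinity

`FF d c x` is defined for small `x` (uniformly: for `|x| < 1/2`, `|c| |x|^d < 1/16`), continuous,
holomorphic in each variable, and `FF(c,x)^d = FF(c,x^d) - c x^d`, `FF(c,0) = 1`.
-/

set_option autoImplicit false

open Complex Topology Filter Metric Set

namespace Pool.Agent.Y739.LC

/-- the principal `d`-th root -/
noncomputable def rt (d : ℕ) (T : ℂ) : ℂ := Complex.exp (Complex.log T / d)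

lemma rt_pow {d : ℕ} (hd : d ≠ 0) {T : ℂ} (hT : T ≠ 0) : rt d T ^ d = T := by
  have hdC : (d : ℂ) ≠ 0 := by exact_mod_cast hd
  unfold rt
  rw [← Complex.exp_nat_mul, mul_div_cancel₀ _ hdC, Complex.exp_log hT]

lemma rt_one (d : ℕ) : rt d 1 = 1 := by simp [rt]

lemma re_ge {T : ℂ} (hT : T ∈ closedBall (1 : ℂ) (1 / 4)) : 3 / 4 ≤ T.re := by
  rw [mem_closedBall, dist_eq_norm] at hT
  have h := (abs_le.1 ((Complex.abs_re_le_norm (T - 1)).trans hT)).1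
  rw [Complex.sub_re, Complex.one_re] at h
  linarith

lemma slit_of_ball {T : ℂ} (hT : T ∈ closedBall (1 : ℂ) (1 / 4)) : T ∈ slitPlane :=
  Or.inl (by have := re_ge hT; linarith)

lemma ne_of_ball {T : ℂ} (hT : T ∈ closedBall (1 : ℂ) (1 / 4)) : T ≠ 0 :=
  slitPlane_ne_zero (slit_of_ball hT)

lemma rt_deriv {d : ℕ} {T : ℂ} (hT : T ∈ slitPlane) :
    HasDerivAt (rt d) (rt d T * (T⁻¹ / d)) T := by
  unfold rt
  exact ((Complex.hasDerivAt_log hT).div_const (d : ℂ)).cexp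

lemma rt_norm {d : ℕ} (hd : 2 ≤ d) {T : ℂ} (hT : T ∈ closedBall (1 : ℂ) (1 / 4)) :
    ‖rt d T‖ ≤ 5 / 4 := by
  have hdR : (2 : ℝ) ≤ d := by exact_mod_cast hd
  have h1 : ‖T‖ ≤ 5 / 4 := by
    rw [mem_closedBall, dist_eq_norm] at hT
    have := norm_add_le (T - 1) 1
    rw [sub_add_cancel, norm_one] at this
    linarith
  have h0 : 0 < ‖T‖ := norm_pos_iff.2 (ne_of_ball hT)
  have h2 : Real.log ‖T‖ ≤ Real.log (5 / 4) := Real.log_le_log h0 h1
  have h3 : 0 ≤ Real.log (5 / 4) := Real.log_nonneg (by norm_num)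
  unfold rt
  rw [Complex.norm_exp]
  have h4 : (Complex.log T / d).re = Real.log ‖T‖ / d := by
    rw [show (d : ℂ) = ((d : ℝ) : ℂ) by norm_cast, Complex.div_ofReal_re, Complex.log_re]
  rw [h4]
  have h5 : Real.log ‖T‖ / d ≤ Real.log (5 / 4) := by
    rw [div_le_iff₀ (by linarith)]
    nlinarith
  calc Real.exp (Real.log ‖T‖ / d) ≤ Real.exp (Real.log (5 / 4)) := Real.exp_le_exp.2 h5
    _ = 5 / 4 := Real.exp_log (by norm_num)

lemma rt_lip {d : ℕ} (hd : 2 ≤ d) {T T' : ℂ} (hT : T ∈ closedBall (1 : ℂ) (1 / 4))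
    (hT' : T' ∈ closedBall (1 : ℂ) (1 / 4)) : ‖rt d T - rt d T'‖ ≤ ‖T - T'‖ := by
  have hdR : (2 : ℝ) ≤ d := by exact_mod_cast hd
  have h := (convex_closedBall (1 : ℂ) (1 / 4)).norm_image_sub_le_of_norm_hasDerivWithin_le
    (f := rt d) (f' := fun T => rt d T * (T⁻¹ / d)) (C := 1)
    (fun x hx => (rt_deriv (slit_of_ball hx)).hasDerivWithinAt) (by
      intro x hx
      have h1 := rt_norm hd hx
      have h2 : 3 / 4 ≤ ‖x‖ := (re_ge hx).trans (Complex.re_le_norm x)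
      rw [norm_mul, norm_div, norm_inv, Complex.norm_natCast]
      have h3 : ‖x‖⁻¹ ≤ 4 / 3 := by
        rw [inv_le_comm₀ (by linarith) (by norm_num)]
        linarith
      have h4 : ‖x‖⁻¹ / d ≤ (4 / 3) / 2 := by
        apply div_le_div₀ (by norm_num) h3 (by norm_num) hdR
      have h5 : 0 ≤ ‖x‖⁻¹ / d := by positivity
      have h6 := norm_nonneg (rt d x)
      nlinarith) hT' hT
  linarith

/-- the approximations -/
noncomputable def Fs (d : ℕ) : ℕ → ℂ → ℂ → ℂ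
  | 0, _, _ => 1
  | j + 1, c, x => rt d (Fs d j c (x ^ d) - c * x ^ d)

lemma Fs_succ (d j : ℕ) (c x : ℂ) : Fs d (j + 1) c x = rt d (Fs d j c (x ^ d) - c * x ^ d) := rfl

lemma Fs_zero (d : ℕ) (c x : ℂ) : Fs d 0 c x = 1 := rfl

/-- the region -/
def VV (d : ℕ) : Set (ℂ × ℂ) := {q | ‖q.2‖ < 1 / 2 ∧ ‖q.1‖ * ‖q.2‖ ^ d < 1 / 16}

lemma isOpen_VV (d : ℕ) : IsOpen (VV d) :=
  (isOpen_lt continuous_snd.norm continuous_const).inter
    (isOpen_lt (continuous_fst.norm.mul (continuous_snd.norm.pow d)) continuous_const)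

lemma pow_small {d : ℕ} (hd : 2 ≤ d) {c x : ℂ} (h : ‖x‖ < 1 / 2) :
    ‖c‖ * ‖x ^ d‖ ^ d ≤ ‖c‖ * ‖x‖ ^ d / 2 := by
  have h0 := norm_nonneg x
  have h1 : ‖x ^ d‖ ^ d ≤ ‖x‖ ^ d * ‖x‖ := by
    rw [norm_pow, ← pow_mul, ← pow_succ]
    apply pow_le_pow_of_le_one h0 (by linarith)
    nlinarith
  have h2 : ‖x‖ ^ d * ‖x‖ ≤ ‖x‖ ^ d * (1 / 2) := mul_le_mul_of_nonneg_left h.le (by positivity)
  have h3 := norm_nonneg c
  nlinarith [mul_le_mul_of_nonneg_left (h1.trans h2) h3]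

lemma VV_pow {d : ℕ} (hd : 2 ≤ d) {c x : ℂ} (h : (c, x) ∈ VV d) : (c, x ^ d) ∈ VV d := by
  obtain ⟨h1, h2⟩ := h
  simp only at h1 h2
  have h0 := norm_nonneg x
  have h3 := norm_nonneg c
  refine ⟨?_, ?_⟩
  · simp only
    rw [norm_pow]
    calc ‖x‖ ^ d ≤ ‖x‖ ^ 1 := pow_le_pow_of_le_one h0 (by linarith) (by omega)
      _ < 1 / 2 := by rw [pow_one]; exact h1
  · simp only
    have := pow_small hd (c := c) h1
    have h4 : 0 ≤ ‖c‖ * ‖x‖ ^ d := by positivity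
    linarith

lemma VV_mem_zero {d : ℕ} (hd : 2 ≤ d) (c : ℂ) : (c, (0 : ℂ)) ∈ VV d := by
  constructor
  · simp
  · simp [show d ≠ 0 by omega]

lemma VV_star {d : ℕ} (c x : ℂ) (hx : (c, x) ∈ VV d) (s : ℝ) (hs : s ∈ Icc (0 : ℝ) 1) :
    (c, (s : ℂ) * x) ∈ VV d := by
  have h : ‖(s : ℂ) * x‖ ≤ ‖x‖ := by
    rw [norm_mul, Complex.norm_real, Real.norm_eq_abs, abs_of_nonneg hs.1]
    exact mul_le_of_le_one_left (norm_nonneg x) hs.2
  refine ⟨lt_of_le_of_lt h hx.1, lt_of_le_of_lt ?_ hx.2⟩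
  exact mul_le_mul_of_nonneg_left (pow_le_pow_left₀ (norm_nonneg _) h d) (norm_nonneg c)

lemma arg_mem' {d : ℕ} (hd : 2 ≤ d) {c x F : ℂ} (h : (c, x) ∈ VV d)
    (hF : ‖F - 1‖ ≤ 2 * (‖c‖ * ‖x ^ d‖ ^ d)) : F - c * x ^ d ∈ closedBall (1 : ℂ) (1 / 4) ∧
      ‖F - c * x ^ d - 1‖ ≤ 2 * (‖c‖ * ‖x‖ ^ d) := by
  have h1 := pow_small hd (c := c) h.1
  have h2 := h.2
  simp only at h1 h2
  have h4 : 0 ≤ ‖c‖ * ‖x‖ ^ d := by positivity
  have h3 : ‖F - c * x ^ d - 1‖ ≤ ‖F - 1‖ + ‖c‖ * ‖x‖ ^ d := by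
    have := norm_sub_le (F - 1) (c * x ^ d)
    rw [norm_mul, norm_pow] at this
    rwa [show F - c * x ^ d - 1 = F - 1 - c * x ^ d by ring]
  constructor
  · rw [mem_closedBall, dist_eq_norm]
    linarith
  · linarith

lemma Fs_bd {d : ℕ} (hd : 2 ≤ d) (j : ℕ) : ∀ c x, (c, x) ∈ VV d →
    ‖Fs d j c x - 1‖ ≤ 2 * (‖c‖ * ‖x‖ ^ d) := by
  induction j with
  | zero =>
    intro c x _
    rw [Fs_zero, sub_self, norm_zero]
    positivity
  | succ j ih =>
    intro c x h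
    obtain ⟨h1, h2⟩ := arg_mem' hd h (ih c (x ^ d) (VV_pow hd h))
    rw [Fs_succ]
    have h3 := rt_lip hd h1 (mem_closedBall_self (by norm_num))
    rw [rt_one] at h3
    exact h3.trans h2

lemma arg_mem {d : ℕ} (hd : 2 ≤ d) (j : ℕ) {c x : ℂ} (h : (c, x) ∈ VV d) :
    Fs d j c (x ^ d) - c * x ^ d ∈ closedBall (1 : ℂ) (1 / 4) :=
  (arg_mem' hd h (Fs_bd hd j c (x ^ d) (VV_pow hd h))).1

lemma Fs_diff {d : ℕ} (hd : 2 ≤ d) (j : ℕ) : ∀ c x, (c, x) ∈ VV d →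
    ‖Fs d (j + 1) c x - Fs d j c x‖ ≤ ‖c‖ * ‖x‖ ^ d * (1 / 2) ^ j := by
  induction j with
  | zero =>
    intro c x h
    rw [Fs_succ, Fs_zero, Fs_zero, pow_zero, mul_one]
    have h1 := arg_mem hd 0 h
    rw [Fs_zero] at h1
    have h3 := rt_lip hd h1 (mem_closedBall_self (by norm_num))
    rw [rt_one, sub_sub_cancel_left, norm_neg, norm_mul, norm_pow] at h3
    exact h3
  | succ j ih =>
    intro c x h
    rw [Fs_succ, Fs_succ d j]
    have h3 := rt_lip hd (arg_mem hd (j + 1) h) (arg_mem hd j h)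
    rw [sub_sub_sub_cancel_right] at h3
    have h4 := ih c (x ^ d) (VV_pow hd h)
    have h5 := pow_small hd (c := c) h.1
    simp only at h5
    have h6 : (0 : ℝ) ≤ (1 / 2) ^ j := by positivity
    have h7 := mul_le_mul_of_nonneg_right h5 h6
    refine (h3.trans (h4.trans h7)).trans (le_of_eq ?_)
    rw [pow_succ]
    ring

lemma Fs_dist {d : ℕ} (hd : 2 ≤ d) {c x : ℂ} (h : (c, x) ∈ VV d) (j : ℕ) :
    dist (Fs d j c x) (Fs d (j + 1) c x) ≤ 1 / 16 * (1 / 2) ^ j := by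
  rw [dist_comm, dist_eq_norm]
  refine (Fs_diff hd j c x h).trans ?_
  exact mul_le_mul_of_nonneg_right h.2.le (by positivity)

/-- the limit -/
noncomputable def FF (d : ℕ) (c x : ℂ) : ℂ := limUnder atTop fun j => Fs d j c x

lemma FF_tendsto {d : ℕ} (hd : 2 ≤ d) {c x : ℂ} (h : (c, x) ∈ VV d) :
    Tendsto (fun j => Fs d j c x) atTop (𝓝 (FF d c x)) :=
  (cauchySeq_of_le_geometric (1 / 2) (1 / 16) (by norm_num) (Fs_dist hd h)).tendsto_limUnder

lemma FF_near {d : ℕ} (hd : 2 ≤ d) {c x : ℂ} (h : (c, x) ∈ VV d) (j : ℕ) :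
    dist (Fs d j c x) (FF d c x) ≤ 1 / 8 * (1 / 2) ^ j := by
  have := dist_le_of_le_geometric_of_tendsto (1 / 2) (1 / 16) (by norm_num) (Fs_dist hd h)
    (FF_tendsto hd h) j
  refine this.trans (le_of_eq ?_)
  ring

lemma FF_unif {d : ℕ} (hd : 2 ≤ d) :
    TendstoUniformlyOn (fun j (q : ℂ × ℂ) => Fs d j q.1 q.2) (fun q => FF d q.1 q.2) atTop
      (VV d) := by
  rw [Metric.tendstoUniformlyOn_iff]
  intro ε hε
  have h1 : Tendsto (fun j : ℕ => 1 / 8 * (1 / 2 : ℝ) ^ j) atTop (𝓝 (1 / 8 * 0)) :=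
    (tendsto_pow_atTop_nhds_zero_of_lt_one (by norm_num) (by norm_num)).const_mul _
  rw [mul_zero] at h1
  filter_upwards [h1.eventually (gt_mem_nhds hε)] with j hj q hq
  rw [dist_comm]
  exact lt_of_le_of_lt (FF_near hd (c := q.1) (x := q.2) hq j) hj

lemma FF_bd {d : ℕ} (hd : 2 ≤ d) {c x : ℂ} (h : (c, x) ∈ VV d) :
    ‖FF d c x - 1‖ ≤ 2 * (‖c‖ * ‖x‖ ^ d) := by
  have h1 : Tendsto (fun j => ‖Fs d j c x - 1‖) atTop (𝓝 ‖FF d c x - 1‖) :=
    ((FF_tendsto hd h).sub_const 1).norm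
  exact le_of_tendsto' h1 fun j => Fs_bd hd j c x h

lemma FF_arg {d : ℕ} (hd : 2 ≤ d) {c x : ℂ} (h : (c, x) ∈ VV d) :
    FF d c (x ^ d) - c * x ^ d ∈ closedBall (1 : ℂ) (1 / 4) :=
  (arg_mem' hd h (FF_bd hd (VV_pow hd h))).1

lemma FF_eq {d : ℕ} (hd : 2 ≤ d) {c x : ℂ} (h : (c, x) ∈ VV d) :
    FF d c x = rt d (FF d c (x ^ d) - c * x ^ d) := by
  have h1 := FF_tendsto hd (VV_pow hd h)
  have h2 : Tendsto (fun j => rt d (Fs d j c (x ^ d) - c * x ^ d)) atTop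
      (𝓝 (rt d (FF d c (x ^ d) - c * x ^ d))) :=
    ((rt_deriv (slit_of_ball (FF_arg hd h))).continuousAt.tendsto).comp (h1.sub_const _)
  have h3 : Tendsto (fun j => Fs d (j + 1) c x) atTop (𝓝 (FF d c x)) :=
    (FF_tendsto hd h).comp (tendsto_add_atTop_nat 1)
  exact tendsto_nhds_unique h3 h2

lemma FF_pow {d : ℕ} (hd : 2 ≤ d) {c x : ℂ} (h : (c, x) ∈ VV d) :
    FF d c x ^ d = FF d c (x ^ d) - c * x ^ d := by
  rw [FF_eq hd h, rt_pow (by omega) (ne_of_ball (FF_arg hd h))]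

lemma FF_zero {d : ℕ} (hd : 2 ≤ d) (c : ℂ) : FF d c 0 = 1 := by
  have := FF_bd hd (VV_mem_zero hd c)
  rw [norm_zero, zero_pow (by omega), mul_zero, mul_zero] at this
  exact sub_eq_zero.1 (norm_le_zero_iff.1 this)

lemma Fs_cont {d : ℕ} (hd : 2 ≤ d) (j : ℕ) :
    ContinuousOn (fun q : ℂ × ℂ => Fs d j q.1 q.2) (VV d) := by
  induction j with
  | zero => exact continuousOn_const
  | succ j ih =>
    have h1 : ContinuousOn (fun q : ℂ × ℂ => Fs d j q.1 (q.2 ^ d) - q.1 * q.2 ^ d) (VV d) := by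
      apply ContinuousOn.sub _ (by fun_prop)
      exact ih.comp (f := fun q : ℂ × ℂ => (q.1, q.2 ^ d)) (by fun_prop)
        (fun q hq => VV_pow hd (c := q.1) (x := q.2) hq)
    intro q hq
    exact ContinuousAt.comp_continuousWithinAt (g := rt d)
      (f := fun q : ℂ × ℂ => Fs d j q.1 (q.2 ^ d) - q.1 * q.2 ^ d)
      (rt_deriv (slit_of_ball (arg_mem hd j (c := q.1) (x := q.2) hq))).continuousAt (h1 q hq)

lemma FF_cont {d : ℕ} (hd : 2 ≤ d) : ContinuousOn (fun q : ℂ × ℂ => FF d q.1 q.2) (VV d) :=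
  (FF_unif hd).continuousOn (Frequently.of_forall fun j => Fs_cont hd j)

lemma Fs_diffx {d : ℕ} (hd : 2 ≤ d) (j : ℕ) : ∀ c x, (c, x) ∈ VV d →
    DifferentiableAt ℂ (Fs d j c) x := by
  induction j with
  | zero =>
    intro c x _
    exact differentiableAt_const (1 : ℂ)
  | succ j ih =>
    intro c x h
    have h1 : DifferentiableAt ℂ (fun x => Fs d j c (x ^ d) - c * x ^ d) x := by
      apply DifferentiableAt.sub _ (by fun_prop)
      exact DifferentiableAt.comp x (g := Fs d j c) (f := fun y => y ^ d)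
        (ih c (x ^ d) (VV_pow hd h)) (by fun_prop)
    exact DifferentiableAt.comp x (g := rt d) (f := fun x => Fs d j c (x ^ d) - c * x ^ d)
      (rt_deriv (slit_of_ball (arg_mem hd j h))).differentiableAt h1

lemma Fs_diffc {d : ℕ} (hd : 2 ≤ d) (j : ℕ) : ∀ c x, (c, x) ∈ VV d →
    DifferentiableAt ℂ (fun c => Fs d j c x) c := by
  induction j with
  | zero =>
    intro c x _
    exact differentiableAt_const (1 : ℂ)
  | succ j ih =>
    intro c x h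
    have h1 : DifferentiableAt ℂ (fun c => Fs d j c (x ^ d) - c * x ^ d) c :=
      (ih c (x ^ d) (VV_pow hd h)).sub (by fun_prop)
    exact DifferentiableAt.comp c (g := rt d) (f := fun c => Fs d j c (x ^ d) - c * x ^ d)
      (rt_deriv (slit_of_ball (arg_mem hd j h))).differentiableAt h1

lemma FF_diffx {d : ℕ} (hd : 2 ≤ d) {c x : ℂ} (h : (c, x) ∈ VV d) :
    DifferentiableAt ℂ (FF d c) x := by
  have ho : IsOpen {x : ℂ | (c, x) ∈ VV d} := (isOpen_VV d).preimage (by fun_prop)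
  have hu : TendstoUniformlyOn (fun j => Fs d j c) (FF d c) atTop {x : ℂ | (c, x) ∈ VV d} := by
    intro u hu
    filter_upwards [FF_unif hd u hu] with j hj x hx using hj (c, x) hx
  exact (hu.tendstoLocallyUniformlyOn.differentiableOn (Eventually.of_forall fun j y hy =>
    (Fs_diffx hd j c y hy).differentiableWithinAt) ho).differentiableAt (ho.mem_nhds h)

lemma FF_diffc {d : ℕ} (hd : 2 ≤ d) {c x : ℂ} (h : (c, x) ∈ VV d) :
    DifferentiableAt ℂ (fun c => FF d c x) c := by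
  have ho : IsOpen {c : ℂ | (c, x) ∈ VV d} := (isOpen_VV d).preimage (by fun_prop)
  have hu : TendstoUniformlyOn (fun j c => Fs d j c x) (fun c => FF d c x) atTop
      {c : ℂ | (c, x) ∈ VV d} := by
    intro u hu
    filter_upwards [FF_unif hd u hu] with j hj c hc using hj (c, x) hc
  exact (hu.tendstoLocallyUniformlyOn.differentiableOn (Eventually.of_forall fun j y hy =>
    (Fs_diffc hd j y x hy).differentiableWithinAt) ho).differentiableAt (ho.mem_nhds h)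

end Pool.Agent.Y739.LC
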